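import Pool.Agent.Helper185.SilverFinal

/-!
If one of the two Borel omega-cover selection properties is hereditary, then the continuum
hypothesis fails.
-/

namespace Pool.Agent.Results.MP_c563c8_gt.HereditaryRefutesCH

open Pool.Agent.Helper185.Sel

/-- If at least one of the properties `S₁(B_Ω, B_Ω)` and `S_fin(B_Ω, B_Ω)` of sets of reals is
hereditary, then the continuum hypothesis fails. -/
theorem result :
    ((∀ X Y : Set ℝ, Y ⊆ X → S1 (OmegaOf (BorelFam X)) (OmegaOf (BorelFam X)) →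
        S1 (OmegaOf (BorelFam Y)) (OmegaOf (BorelFam Y))) ∨
      (∀ X Y : Set ℝ, Y ⊆ X → Sfin (OmegaOf (BorelFam X)) (OmegaOf (BorelFam X)) →
        Sfin (OmegaOf (BorelFam Y)) (OmegaOf (BorelFam Y)))) →
      Cardinal.aleph 1 ≠ Cardinal.continuum.{0} := by
  intro h hCH
  obtain ⟨X, Y, hYX, ⟨h1, h2⟩, h3, h4⟩ := Pool.Agent.Helper185.Silver.subsets hCH
  rcases h with h | h
  · exact h3 (h X Y hYX h1)
  · exact h4 (h X Y hYX h2)

end Pool.Agent.Results.MP_c563c8_gt.HereditaryRefutesCH
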