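import Pool.Agent.Helper185.SilverFinal

/-!
Subsets and the Borel omega-cover selection properties, from the continuum hypothesis.
-/

namespace Pool.Agent.Results.MP_c563c8_gt.SubsetCH

open Pool.Agent.Helper185.Sel

/-- The continuum hypothesis gives sets of reals `Y ⊆ X` such that `X` satisfies
`S₁(B_Ω, B_Ω)` and `S_fin(B_Ω, B_Ω)` and `Y` satisfies neither of them. -/
theorem result : Cardinal.aleph 1 = Cardinal.continuum.{0} →
    ∃ X Y : Set ℝ, Y ⊆ X ∧
      (S1 (OmegaOf (BorelFam X)) (OmegaOf (BorelFam X)) ∧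
        Sfin (OmegaOf (BorelFam X)) (OmegaOf (BorelFam X))) ∧
      ¬ S1 (OmegaOf (BorelFam Y)) (OmegaOf (BorelFam Y)) ∧
      ¬ Sfin (OmegaOf (BorelFam Y)) (OmegaOf (BorelFam Y)) :=
  Pool.Agent.Helper185.Silver.subsets

end Pool.Agent.Results.MP_c563c8_gt.SubsetCH
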